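import Pool.Agent.H59.L.S8.W285.WF.Res

set_option autoImplicit false
set_option linter.unusedVariables false
set_option linter.unusedSectionVars false

universe u

open Polynomial IntermediateField Pool.Agent.W558

namespace Pool.Agent.W285.WF

variable {k E : Type u} [Field k] [Field E] [Algebra k E]

/-- Nonzero prime ideals contain elements which are not in the symbolic square. -/
lemma exists_notMem_sq {A : Type*} [CommRing A] [IsDomain A] [IsNoetherianRing A] (p : Ideal A)
    [hp : p.IsPrime] (hp0 : p ≠ ⊥) : ∃ f ∈ p, ∀ s, s ∉ p → s * f ∉ p ^ 2 := by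
  by_contra hcon
  push Not at hcon
  apply hp0
  let B := Localization.AtPrime p
  have hm : IsLocalRing.maximalIdeal B = p.map (algebraMap A B) :=
    (IsLocalization.AtPrime.map_eq_maximalIdeal p B).symm
  have h1 : p.map (algebraMap A B) ≤ (p.map (algebraMap A B)) • (p.map (algebraMap A B)) := by
    rw [smul_eq_mul, ← pow_two, ← Ideal.map_pow, Ideal.map_le_iff_le_comap]
    intro f hf
    rw [Ideal.mem_comap]
    obtain ⟨s, hs, hsf⟩ := hcon f hf
    rw [IsLocalization.algebraMap_mem_map_algebraMap_iff p.primeCompl]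
    exact ⟨s, hs, hsf⟩
  have h2 : p.map (algebraMap A B) = ⊥ := by
    refine Submodule.eq_bot_of_le_smul_of_le_jacobson_bot _ _ ?_ h1 ?_
    · exact IsNoetherian.noetherian _
    · rw [← hm]
      exact IsLocalRing.maximalIdeal_le_jacobson _
  rw [eq_bot_iff]
  intro f hf
  have h3 : algebraMap A B f ∈ p.map (algebraMap A B) := Ideal.mem_map_of_mem _ hf
  rw [h2, Ideal.mem_bot] at h3
  have hinj : Function.Injective (algebraMap A B) :=
    IsLocalization.injective B (M := p.primeCompl) (Ideal.primeCompl_le_nonZeroDivisors p)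
  rw [Ideal.mem_bot]
  exact hinj (by rw [h3, map_zero])

/-- There is a derivation which is transversal to a curve. -/
lemma exists_D [PerfectField k] {A W : Subalgebra k E} [IsLocalRing W] (hA : Sf A)
    (hW : IsDv A W) : ∃ y ∈ A, y ≠ 0 ∧ NU W y ∧ ∃ D : Derivation k E E, (∀ a ∈ A, D a ∈ A) ∧
      ¬ NU W (D y) := by
  have hsm := hA.sm
  have hft : Algebra.FiniteType k A := inferInstance
  have hno : IsNoetherianRing A := Algebra.FiniteType.isNoetherianRing k A
  let φ : A →ₐ[k] IsLocalRing.ResidueField W := (rho W).comp (Subalgebra.inclusion hW.le)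
  have hφ : ∀ a : A, φ a = 0 ↔ NU W (a : E) := fun a => rho_eq_zero
  let p : Ideal A := RingHom.ker φ
  have hp : p.IsPrime := RingHom.ker_isPrime φ
  have hp0 : p ≠ ⊥ := by
    obtain ⟨y, hyA, hy0, hy⟩ := hW.nt
    intro h
    have h1 : (⟨y, hyA⟩ : A) ∈ p := (hφ _).2 hy
    rw [h, Ideal.mem_bot] at h1
    exact hy0 (congrArg Subtype.val h1)
  obtain ⟨f, hf, hfs⟩ := exists_notMem_sq p hp0
  obtain ⟨D0, hD0, -⟩ := exists_TV φ ⊥ bot_le (f := f) hf (by
    intro s hs
    rw [sup_bot_eq]
    exact hfs s hs)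
  obtain ⟨δ, hδ⟩ := exists_der φ D0 hD0
  have hfr : IsFractionRing A E := by
    refine IsFractionRing.of_field A E fun z => ?_
    obtain ⟨a, ha, b, hb, hb0, rfl⟩ := hA.fr z
    exact ⟨⟨a, ha⟩, ⟨b, hb⟩, (div_eq_mul_inv a b).symm⟩
  obtain ⟨D, hD⟩ := exists_der_frac (K := E) δ
  have hDf : D (f : E) = (δ f : E) := hD f
  refine ⟨f, f.2, ?_, (hφ f).1 hf, D, ?_, ?_⟩
  · intro h0
    apply hδ
    have : f = 0 := Subtype.ext h0
    rw [this, map_zero, map_zero]
  · intro a ha
    have : D a = (δ ⟨a, ha⟩ : E) := hD ⟨a, ha⟩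
    rw [this]
    exact (δ ⟨a, ha⟩).2
  · rw [hDf, ← hφ]
    exact hδ

end Pool.Agent.W285.WF
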