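import Pool.Agent.H59.L.S8.W558.S.Stms

set_option autoImplicit false
set_option linter.unusedVariables false
set_option linter.unusedSectionVars false

universe u

open Polynomial IntermediateField Pool.Agent.W558

namespace Pool.Agent.W285.WF

variable {k E : Type u} [Field k] [Field E] [Algebra k E] {W : Subalgebra k E} [IsLocalRing W]

/-- The residue map. -/
noncomputable def rho (W : Subalgebra k E) [IsLocalRing W] :
    W →ₐ[k] IsLocalRing.ResidueField W := IsScalarTower.toAlgHom k W (IsLocalRing.ResidueField W)

lemma rho_surj : Function.Surjective (rho W) := IsLocalRing.residue_surjective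

lemma rho_eq_zero {a : W} : rho W a = 0 ↔ NU W (a : E) := residue_eq_zero_NU

/-- An element of the maximal ideal is transcendental over a subring that injects into the
residue field. -/
lemma transc_of_inj {C : Subalgebra k E} (hle : C ≤ W) (hinj : ∀ c ∈ C, NU W c → c = 0)
    {y : E} (hy0 : y ≠ 0) (hy : NU W y) : Transcendental C y := by
  rintro ⟨P, hP0, hP⟩
  obtain ⟨Q, hQ, hQ0⟩ := Polynomial.exists_eq_pow_rootMultiplicity_mul_and_not_dvd P hP0 0
  rw [map_zero, sub_zero] at hQ hQ0
  have hc : Q.coeff 0 ≠ 0 := fun h0 => hQ0 (X_dvd_iff.2 h0)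
  have hQy : aeval y Q = 0 := by
    rw [hQ, map_mul, map_pow, aeval_X] at hP
    exact (mul_eq_zero.1 hP).resolve_left (pow_ne_zero _ hy0)
  have hdiv : aeval y Q = y * aeval y Q.divX + (Q.coeff 0 : E) := by
    conv_lhs => rw [← Q.divX_mul_X_add]
    rw [map_add, map_mul, aeval_X, aeval_C]
    change _ + (Q.coeff 0 : E) = _
    ring
  have hDW : aeval y Q.divX ∈ W := by
    rw [aeval_eq_sum_range]
    refine W.sum_mem fun i _ => ?_
    rw [Algebra.smul_def]
    exact W.mul_mem (hle (Q.divX.coeff i).2) (W.pow_mem hy.1 _)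
  have hNU : NU W (Q.coeff 0 : E) := by
    have h3 : (Q.coeff 0 : E) = -(y * aeval y Q.divX) := by
      rw [hQy] at hdiv
      linear_combination -hdiv
    rw [h3]
    exact (hy.mul_right hDW).neg
  exact hc (Subtype.ext (hinj _ (Q.coeff 0).2 hNU))

/-- Lifting of algebraically independent families. -/
lemma indep_option {ι : Type*} {w : ι → W} (hw : AlgebraicIndependent k (fun i => rho W (w i)))
    {y : W} (hy0 : (y : E) ≠ 0) (hy : NU W (y : E)) :
    AlgebraicIndependent k (fun o : Option ι => o.elim (y : E) (fun i => (w i : E))) := by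
  have h1 : AlgebraicIndependent k w := AlgebraicIndependent.of_comp (rho W) hw
  have h2 : AlgebraicIndependent k (fun i => (w i : E)) :=
    h1.map' (f := W.val) Subtype.val_injective
  rw [h2.option_iff_transcendental]
  have hle : Algebra.adjoin k (Set.range fun i => (w i : E)) ≤ W := by
    rw [Algebra.adjoin_le_iff]
    rintro _ ⟨i, rfl⟩
    exact (w i).2
  refine transc_of_inj hle ?_ hy0 hy
  intro c hmem hNU
  rw [Algebra.adjoin_range_eq_range_aeval] at hmem
  obtain ⟨g, hg⟩ := hmem
  have hg0 : MvPolynomial.aeval (fun i => (w i : E)) g = c := hg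
  have hg1 : MvPolynomial.aeval (fun i => (w i : E)) g = ((MvPolynomial.aeval w g : W) : E) :=
    (MvPolynomial.comp_aeval_apply (fun i => w i) W.val g).symm
  have hg2 : MvPolynomial.aeval (fun i => rho W (w i)) g = rho W (MvPolynomial.aeval w g) :=
    (MvPolynomial.comp_aeval_apply (fun i => w i) (rho W) g).symm
  have hg3 : rho W (MvPolynomial.aeval w g) = 0 := by
    rw [rho_eq_zero, ← hg1, hg0]
    exact hNU
  have hg4 : g = 0 := by
    have := hw
    rw [algebraicIndependent_iff] at this
    exact this g (by rw [hg2, hg3])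
  rw [← hg0, hg4, map_zero]

/-- The residue field of a curve on a surface has transcendence degree at most one. -/
lemma isAlgebraic_of_transcendental (htr : Algebra.trdeg k E = 2) {y : W} (hy0 : (y : E) ≠ 0)
    (hy : NU W (y : E)) {x : IsLocalRing.ResidueField W} (hx : Transcendental k x)
    (b : IsLocalRing.ResidueField W) : IsIntegral k⟮x⟯ b := by
  have h1 : IsAlgebraic (Algebra.adjoin k {x}) b := by
    by_contra hcon
    have hx1 : AlgebraicIndependent k (fun _ : Unit => x) :=
      algebraicIndependent_unique_type_iff.2 hx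
    have hr : Set.range (fun _ : Unit => x) = {x} := by
      ext z; simp [eq_comm]
    have h2 : AlgebraicIndependent k (fun o : Option Unit => o.elim b (fun _ => x)) := by
      rw [hx1.option_iff_transcendental, hr]
      exact hcon
    choose w hw using fun o : Option Unit => rho_surj (W := W) (o.elim b (fun _ => x))
    have h3 : AlgebraicIndependent k (fun o : Option Unit => rho W (w o)) := by
      simp_rw [hw]; exact h2
    have h4 := (indep_option h3 hy0 hy).lift_cardinalMk_le_trdeg
    rw [htr] at h4
    have h5 : Cardinal.mk (Option (Option Unit)) = 3 := by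
      rw [Cardinal.mk_fintype]; rfl
    rw [h5] at h4
    have h6 : (3 : Cardinal.{u}) ≤ 2 := by simpa using h4
    exact absurd h6 (by norm_num)
  exact (h1.tower_top_of_subalgebra_le
    (B := (IntermediateField.adjoin k {x}).toSubalgebra)
      (IntermediateField.algebra_adjoin_le_adjoin k {x})).isIntegral

lemma finite_residue (htr : Algebra.trdeg k E = 2) {A : Subalgebra k E} (hA : Sf A)
    (hW : IsDv A W) {x : IsLocalRing.ResidueField W} (hx : Transcendental k x) :
    FiniteDimensional k⟮x⟯ (IsLocalRing.ResidueField W) := by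
  obtain ⟨y, hyA, hy0, hy⟩ := hW.nt
  have hint := isAlgebraic_of_transcendental htr (y := ⟨y, hy.1⟩) hy0 hy hx
  have hft : Algebra.FiniteType k A := by
    have := hA.sm
    infer_instance
  obtain ⟨s, hs⟩ := hft.out
  let φ : A →ₐ[k] IsLocalRing.ResidueField W := (rho W).comp (Subalgebra.inclusion hW.le)
  have hfin := IntermediateField.finiteDimensional_adjoin (K := k⟮x⟯)
    (S := φ '' (s : Set A)) (fun b _ => hint b)
  have htop : IntermediateField.adjoin k⟮x⟯ (φ '' (s : Set A)) = ⊤ := by
    rw [eq_top_iff]
    rintro l -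
    have hφ : ∀ a : A, φ a ∈ IntermediateField.adjoin k⟮x⟯ (φ '' (s : Set A)) := by
      intro a
      have ha : a ∈ Algebra.adjoin k (s : Set A) := by rw [hs]; trivial
      induction ha using Algebra.adjoin_induction with
      | mem a ha => exact IntermediateField.subset_adjoin _ _ ⟨a, ha, rfl⟩
      | algebraMap r =>
        rw [AlgHom.commutes, IsScalarTower.algebraMap_apply k k⟮x⟯]
        exact IntermediateField.algebraMap_mem _ _
      | add a b _ _ h1 h2 => rw [map_add]; exact add_mem h1 h2
      | mul a b _ _ h1 h2 => rw [map_mul]; exact mul_mem h1 h2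
    obtain ⟨w, rfl⟩ := rho_surj l
    obtain ⟨a, ha, b, hb, hb0, hbi, hw⟩ := hW.frac w w.2
    have h1 : φ ⟨b, hb⟩ ≠ 0 := by
      intro h
      exact not_NU_of_inv hb0 hbi (rho_eq_zero.1 h)
    have h2 : rho W w = φ ⟨a, ha⟩ * (φ ⟨b, hb⟩)⁻¹ := by
      rw [eq_mul_inv_iff_mul_eq₀ h1]
      change rho W w * rho W _ = rho W _
      rw [← map_mul]
      congr 1
      apply Subtype.ext
      change (w : E) * b = a
      rw [hw, inv_mul_cancel_right₀ hb0]
    rw [h2]
    exact mul_mem (hφ _) (inv_mem (hφ _))
  rw [htop] at hfin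
  exact Module.Finite.equiv (IntermediateField.topEquiv (F := k⟮x⟯)
    (E := IsLocalRing.ResidueField W)).toLinearEquiv

end Pool.Agent.W285.WF
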